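import Pool.Agent.X115.HS.Stm2

/-! Project HS: the Laplacian of a product. -/

set_option autoImplicit false

namespace Pool.Agent.X4.HS

open Pool.Agent.X115.HS

variable {n : ℕ}

theorem line {f : X n → ℝ} (hf : Differentiable ℝ f) (x e : X n) (s : ℝ) :
    HasDerivAt (fun s : ℝ => f (x + s • e)) (fderiv ℝ f (x + s • e) e) s := by
  have h1 : HasDerivAt (fun s : ℝ => x + s • e) e s := by
    simpa using ((hasDerivAt_id s).smul_const e).const_add x
  exact (hf (x + s • e)).hasFDerivAt.comp_hasDerivAt s h1

theorem pd_eq {f : X n → ℝ} (hf : Differentiable ℝ f) (i : Fin n) :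
    pd i f = fun x => fderiv ℝ f x (EuclideanSpace.single i (1 : ℝ)) := by
  ext x
  unfold pd
  have := (line hf x (EuclideanSpace.single i (1 : ℝ)) 0).deriv
  rw [this]
  simp

theorem deriv_line {f : X n → ℝ} (hf : Differentiable ℝ f) (i : Fin n) (x : X n) :
    (deriv fun s : ℝ => f (x + s • EuclideanSpace.single i (1 : ℝ))) =
      fun s : ℝ => pd i f (x + s • EuclideanSpace.single i (1 : ℝ)) := by
  ext s
  rw [(line hf x (EuclideanSpace.single i (1 : ℝ)) s).deriv, pd_eq hf]

theorem d2_eq {f : X n → ℝ} (hf : Differentiable ℝ f) (i : Fin n) (x : X n) :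
    d2 i f x = pd i (pd i f) x := by
  unfold d2
  rw [deriv_line hf]
  rfl

theorem pd_contDiff {f : X n → ℝ} (hf : ContDiff ℝ 2 f) (i : Fin n) : ContDiff ℝ 1 (pd i f) := by
  rw [pd_eq (hf.differentiable (by norm_num))]
  exact (hf.fderiv_right (m := 1) (by norm_num)).clm_apply contDiff_const

theorem pd_mul {f g : X n → ℝ} (hf : Differentiable ℝ f) (hg : Differentiable ℝ g) (i : Fin n) :
    pd i (fun y => f y * g y) = fun y => pd i f y * g y + f y * pd i g y := by
  rw [pd_eq (f := fun y => f y * g y) (hf.mul hg), pd_eq hf, pd_eq hg]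
  ext x
  rw [fderiv_fun_mul (hf x) (hg x)]
  simp only [ContinuousLinearMap.add_apply, ContinuousLinearMap.smul_apply, smul_eq_mul]
  ring

theorem pd_add {f g : X n → ℝ} (hf : Differentiable ℝ f) (hg : Differentiable ℝ g) (i : Fin n) :
    pd i (fun y => f y + g y) = fun y => pd i f y + pd i g y := by
  rw [pd_eq (f := fun y => f y + g y) (hf.add hg), pd_eq hf, pd_eq hg]
  ext x
  rw [fderiv_fun_add (hf x) (hg x)]
  simp only [ContinuousLinearMap.add_apply]

theorem t : S_PROD := by
  intro n f g hf hg
  have hf1 : Differentiable ℝ f := hf.differentiable (by norm_num)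
  have hg1 : Differentiable ℝ g := hg.differentiable (by norm_num)
  refine ⟨fun x => ?_, fun i => (pd_contDiff hf i).continuous, fun i => ?_⟩
  · unfold lap
    have h1 : ∀ i : Fin n, d2 i (fun y => f y * g y) x =
        d2 i f x * g x + 2 * (pd i f x * pd i g x) + f x * d2 i g x := by
      intro i
      have hpf : Differentiable ℝ (pd i f) := (pd_contDiff hf i).differentiable (by norm_num)
      have hpg : Differentiable ℝ (pd i g) := (pd_contDiff hg i).differentiable (by norm_num)
      rw [d2_eq (f := fun y => f y * g y) (hf1.mul hg1), d2_eq hf1, d2_eq hg1, pd_mul hf1 hg1,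
        pd_add (f := fun y => pd i f y * g y) (g := fun y => f y * pd i g y) (hpf.mul hg1) (hf1.mul hpg),
        pd_mul hpf hg1, pd_mul hf1 hpg]
      ring
    rw [Finset.sum_congr rfl fun i _ => h1 i, Finset.sum_add_distrib, Finset.sum_add_distrib, Finset.sum_mul,
      Finset.mul_sum, Finset.mul_sum]
  · have h1 : d2 i f = pd i (pd i f) := by
      ext x
      exact d2_eq hf1 i x
    rw [h1, pd_eq ((pd_contDiff hf i).differentiable (by norm_num))]
    exact ((pd_contDiff hf i).continuous_fderiv (by norm_num)).clm_apply continuous_const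

end Pool.Agent.X4.HS
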